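import Mathlib
import Pool.Agent.Helper11.Can.Defs
import Pool.Agent.Helper54.CAN.L13

/-!
# CAN-L17: contraction of two tensors, one of which vanishes on words of weight `0`
(project CAN, MP_5f0950_ag)
-/

universe u

open Finset Matrix

namespace Pool.Agent.Helper11.Can

open Pool.Agent.Helper10.GIT Pool.Agent.Helper11.GIT

variable {P : ℕ} {d : Fin P → ℕ}

namespace L17

lemma prod_mul_apply {κ : Type*} [Field κ] {χ : Shape P}
    (X Y : ∀ i : Fin χ.1, Matrix (Fin (d (χ.2 i))) (Fin (d (χ.2 i))) κ) (w w' : Word d χ) :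
    ∏ i, (X i * Y i) (w i) (w' i) =
      ∑ v : Word d χ, (∏ i, X i (w i) (v i)) * ∏ i, Y i (v i) (w' i) := by
  have h5 : ∀ i, (X i * Y i) (w i) (w' i) =
      ∑ b : Fin (d (χ.2 i)), X i (w i) b * Y i b (w' i) := fun i => Matrix.mul_apply
  rw [prod_congr rfl fun i _ => h5 i, prod_univ_sum, Fintype.piFinset_univ]
  exact sum_congr rfl fun v _ => prod_mul_distrib

end L17

/-- CAN-L17: contractions of two tensors of `A`, one of which vanishes on words of weight `0`. -/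
theorem flag_contract {κ : Type u} [Field κ] {P : ℕ} {d : Fin P → ℕ} {A N : Family d κ}
    {h : Mats d κ} {γ : WSpace d} (ho : Adapted A N h γ) (G B : Mats d κ)
    (hGB : ∀ c, G c * B c = 1)
    (h1 : ∀ c a b, (h c * G c * (h c)ᵀ) a b ≠ 0 → 0 ≤ γ ⟨c, a⟩ + γ ⟨c, b⟩)
    (h2 : ∀ c a b, (h c * G c * (h c)ᵀ)⁻¹ a b ≠ 0 → γ ⟨c, a⟩ + γ ⟨c, b⟩ ≤ 0)
    {χ : Shape P} (z z' : Ten d κ χ) (hz : z ∈ A χ) (hz' : z' ∈ A χ)
    (h0 : ∀ (a : Fin χ.1 → ℝ) (x : ∀ i, Fin (d (χ.2 i)) → κ),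
      (∀ i, x i ∈ flag h γ (χ.2 i) (a i)) → ∑ i, a i = 0 →
      ∑ w : Word d χ, z w * ∏ i, (x i ᵥ* B (χ.2 i)) (w i) = 0) :
    ∑ w : Word d χ, ∑ w' : Word d χ, z w * (∏ i, B (χ.2 i) (w' i) (w i)) * z' w' = 0 := by
  -- the words of weight zero
  have hzero : ∀ v : Word d χ, wgt γ ⟨χ, v⟩ = 0 → act (sh h χ) z v = 0 := by
    intro v hv
    have h3 := h0 (fun i => -γ (lt v i)) (fun i => h (χ.2 i) (v i) ᵥ* G (χ.2 i)) ?_ ?_
    · rw [← h3, act_apply]
      refine sum_congr rfl fun w _ => ?_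
      rw [mul_comm]
      congr 1
      refine prod_congr rfl fun i _ => ?_
      rw [Matrix.vecMul_vecMul, hGB, Matrix.vecMul_one]
      rfl
    · intro i b hb
      rw [← Matrix.vecMul_transpose, Matrix.vecMul_vecMul]
      have h4 : (h (χ.2 i) (v i) ᵥ* (G (χ.2 i) * (h (χ.2 i))ᵀ)) b =
          (h (χ.2 i) * G (χ.2 i) * (h (χ.2 i))ᵀ) (v i) b := by
        rw [Matrix.mul_assoc, Matrix.mul_apply]
        rfl
      rw [h4]
      by_contra hne
      have h5 := h1 _ _ _ hne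
      unfold lt at hb
      linarith
    · rw [sum_neg_distrib, neg_eq_zero]
      exact hv
  -- the expansion of the product of the entries of `B`
  have hprod : ∀ w w' : Word d χ, ∏ i, B (χ.2 i) (w' i) (w i) =
      ∑ v' : Word d χ, (∏ i, h (χ.2 i) (v' i) (w' i)) *
        ∑ v : Word d χ, (∏ i, (h (χ.2 i) * G (χ.2 i) * (h (χ.2 i))ᵀ)⁻¹ (v' i) (v i)) *
          ∏ i, h (χ.2 i) (v i) (w i) := by
    intro w w'
    have h3 : ∀ i, B (χ.2 i) (w' i) (w i) = ((h (χ.2 i))ᵀ *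
        ((h (χ.2 i) * G (χ.2 i) * (h (χ.2 i))ᵀ)⁻¹ * h (χ.2 i))) (w' i) (w i) := by
      intro i
      rw [L13.transpose_inv_mul (ho.det _) (hGB _)]
    rw [prod_congr rfl fun i _ => h3 i, L17.prod_mul_apply (χ := χ)
      (fun i => (h (χ.2 i))ᵀ) (fun i => (h (χ.2 i) * G (χ.2 i) * (h (χ.2 i))ᵀ)⁻¹ * h (χ.2 i))]
    refine sum_congr rfl fun v' _ => ?_
    rw [L17.prod_mul_apply (χ := χ) (fun i => (h (χ.2 i) * G (χ.2 i) * (h (χ.2 i))ᵀ)⁻¹)
      (fun i => h (χ.2 i))]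
    rfl
  set Hp : Word d χ → Word d χ → κ := fun v w => ∏ i, h (χ.2 i) (v i) (w i) with hHp
  set Gp : Word d χ → Word d χ → κ := fun v v' =>
    ∏ i, (h (χ.2 i) * G (χ.2 i) * (h (χ.2 i))ᵀ)⁻¹ (v i) (v' i) with hGp
  have hact : ∀ (y : Ten d κ χ) v, act (sh h χ) y v = ∑ w, Hp v w * y w := fun y v =>
    act_apply _ _ _
  have hsum : ∑ w : Word d χ, ∑ w' : Word d χ, z w * (∏ i, B (χ.2 i) (w' i) (w i)) * z' w' =
      ∑ v' : Word d χ, ∑ v : Word d χ, act (sh h χ) z' v' * Gp v' v * act (sh h χ) z v := by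
    calc ∑ w : Word d χ, ∑ w' : Word d χ, z w * (∏ i, B (χ.2 i) (w' i) (w i)) * z' w'
        = ∑ w : Word d χ, ∑ w' : Word d χ, ∑ v' : Word d χ, ∑ v : Word d χ,
            (Hp v' w' * z' w') * Gp v' v * (Hp v w * z w) := by
          refine sum_congr rfl fun w _ => sum_congr rfl fun w' _ => ?_
          rw [hprod, mul_sum, sum_mul]
          refine sum_congr rfl fun v' _ => ?_
          rw [mul_sum, mul_sum, sum_mul]
          refine sum_congr rfl fun v _ => ?_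
          ring
      _ = ∑ v' : Word d χ, ∑ w : Word d χ, ∑ w' : Word d χ, ∑ v : Word d χ,
            (Hp v' w' * z' w') * Gp v' v * (Hp v w * z w) := by
          rw [sum_comm]
          rw [sum_congr rfl fun w' _ => sum_comm]
          rw [sum_comm]
          exact sum_congr rfl fun v' _ => sum_comm
      _ = ∑ v' : Word d χ, ∑ v : Word d χ, act (sh h χ) z' v' * Gp v' v *
            act (sh h χ) z v := by
          refine sum_congr rfl fun v' _ => ?_
          rw [sum_congr rfl fun w _ => sum_comm, sum_comm]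
          refine sum_congr rfl fun v _ => ?_
          rw [hact, hact, sum_mul, sum_mul, sum_comm]
          refine sum_congr rfl fun w' _ => ?_
          rw [mul_sum]
  rw [hsum]
  refine sum_eq_zero fun v' _ => sum_eq_zero fun v _ => ?_
  by_contra hne
  have hz1 : act (sh h χ) z v ≠ 0 := right_ne_zero_of_mul hne
  have hz1' : act (sh h χ) z' v' ≠ 0 := left_ne_zero_of_mul (left_ne_zero_of_mul hne)
  have hG1 : Gp v' v ≠ 0 := right_ne_zero_of_mul (left_ne_zero_of_mul hne)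
  have hw := ho.nonneg ⟨χ, v⟩ ⟨z, hz, hz1⟩
  have hw' := ho.nonneg ⟨χ, v'⟩ ⟨z', hz', hz1'⟩
  have hle : wgt γ ⟨χ, v'⟩ + wgt γ ⟨χ, v⟩ ≤ 0 := by
    unfold wgt
    rw [← sum_add_distrib]
    refine sum_nonpos fun i _ => ?_
    refine h2 (χ.2 i) (v' i) (v i) fun h3 => hG1 ?_
    exact prod_eq_zero (mem_univ i) h3
  exact hz1 (hzero v (by linarith))

end Pool.Agent.Helper11.Can
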