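import Pool.Agent.Helper11.Can.Defs

/-!
# CAN-L2 (MP_5f0950_ag)
-/

universe u

open Finset Matrix MvPolynomial

namespace Pool.Agent.Helper11.Can

open Pool.Agent.Helper10.GIT Pool.Agent.Helper11.GIT

variable {P : ℕ} {d : Fin P → ℕ}

/-- CAN-L2: semi-invariance of the pairing with generic determinants -/
theorem fis_genDet_add {Ω : Type u} [Field Ω] [CharZero Ω] (a b : Fin P → ℕ) :
    ∃ β : Ω, ∀ Q, fis (genDet d Ω (a + b)) (Q * genDet d Ω b) = β * fis (genDet d Ω a) Q := by
  classical
  let l : MvPolynomial (GV d) Ω →ₗ[Ω] Ω :=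
    (fis (genDet d Ω (a + b))).comp (LinearMap.mulRight Ω (genDet d Ω b))
  have hl : ∀ Q, l Q = fis (genDet d Ω (a + b)) (Q * genDet d Ω b) := fun Q => rfl
  obtain ⟨h, hh⟩ := exists_fis_rep l
    ((genDet d Ω (a + b)).support.biUnion fun β => Finset.Iic β) (by
    intro α hα
    rw [hl, fis_eq_sum]
    refine sum_eq_zero fun β hβ => ?_
    rw [coeff_monomial_mul', if_neg, mul_zero]
    intro hle
    exact hα (mem_biUnion.mpr ⟨β, hβ, mem_Iic.mpr hle⟩))
  have hcf : ∀ A : Mats d Ω, cfac (a + b) A = cfac a A * cfac b A := by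
    intro A
    unfold cfac
    rw [← prod_mul_distrib]
    exact prod_congr rfl fun t _ => by rw [Pi.add_apply, pow_add]
  have key : ∀ A : Mats d Ω, (∀ t, (A t).det ≠ 0) →
      subst (big A) h = C (cfac a A) * h := by
    intro A hA
    have hb : cfac b A ≠ 0 := prod_ne_zero_iff.mpr fun t _ => pow_ne_zero _ (hA t)
    refine fis_ext fun Q => ?_
    have hT : ∀ e : Fin P → ℕ, cfac e (fun t => (A t).transpose) = cfac e A := by
      intro e
      unfold cfac
      simp only [det_transpose]
    have h1 : ∀ e : Fin P → ℕ, subst (big fun t => (A t).transpose) (genDet d Ω e) =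
        C (cfac e A) * genDet d Ω e := by
      intro e
      rw [subst_big_genDet, hT]
    have h2 : subst (big A) (genDet d Ω (a + b)) =
        C (cfac (a + b) A) * genDet d Ω (a + b) := by
      rw [subst_big_genDet]
    have h3 : cfac b A * fis (subst (big A) h) Q =
        cfac b A * fis (C (cfac a A) * h) Q := by
      rw [fis_subst, big_transpose, hh, hl]
      calc cfac b A * fis (genDet d Ω (a + b))
            (subst (big fun t => (A t).transpose) Q * genDet d Ω b)
          = fis (genDet d Ω (a + b))
            (subst (big fun t => (A t).transpose) (Q * genDet d Ω b)) := by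
            rw [map_mul (subst _), h1, ← smul_eq_C_mul, mul_smul_comm, map_smul, smul_eq_mul]
        _ = fis (subst (big A) (genDet d Ω (a + b))) (Q * genDet d Ω b) := by
            rw [fis_subst, big_transpose]
        _ = cfac (a + b) A * l Q := by
            rw [h2, ← smul_eq_C_mul, map_smul, LinearMap.smul_apply, smul_eq_mul, hl]
        _ = _ := by
            rw [← smul_eq_C_mul, map_smul, LinearMap.smul_apply, smul_eq_mul, hh, hcf]
            ring
    exact mul_left_cancel₀ hb h3
  have hinf : Infinite Ω := inferInstance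
  have hfin : h = C (eval (pt 1) h) * genDet d Ω a := by
    have h1 : (h - C (eval (pt 1) h) * genDet d Ω a) * ∏ t, (gen d Ω t).det = 0 := by
      refine MvPolynomial.funext fun x => ?_
      let A : Mats d Ω := fun t => Matrix.of fun a b => x ⟨t, (a, b)⟩
      have hx : x = pt A := rfl
      rw [map_zero, map_mul, hx]
      by_cases hA : cfac (fun _ => 1) A = 0
      · have h2 : eval (pt A) (∏ t, (gen d Ω t).det) = cfac (fun _ => 1) A := by
          rw [← eval_genDet]
          simp [genDet]
        rw [h2, hA, mul_zero]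
      · have h3 : ∀ t, (A t).det ≠ 0 := by
          intro t ht
          exact hA (prod_eq_zero (mem_univ t) (by rw [ht, pow_one]))
        have h4 := congrArg (eval (pt (1 : Mats d Ω))) (key A h3)
        rw [eval_subst_big, map_mul, eval_C] at h4
        rw [map_sub, map_mul, eval_C, eval_genDet, h4]
        ring
    have h2 : ∏ t, (gen d Ω t).det ≠ 0 := prod_ne_zero_iff.mpr fun t _ => det_gen_ne_zero t
    exact sub_eq_zero.mp ((mul_eq_zero.mp h1).resolve_right h2)
  refine ⟨eval (pt 1) h, fun Q => ?_⟩
  rw [← hl, ← hh]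
  conv_lhs => rw [hfin]
  rw [← smul_eq_C_mul, map_smul, LinearMap.smul_apply, smul_eq_mul]

end Pool.Agent.Helper11.Can
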